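import Mathlib
import Pool.Agent.N178.HX.Parts
import Pool.Agent.N994.FH.J
import Pool.Agent.N994.FH.Cn1

/-!
# The case of coniveau one for varieties dominated by abelian varieties with small period fields,
# with independent complex multiplications, and by powers of abelian varieties of dimension three

Let `X` be a complex abelian variety (`AV`, up to isogeny). We prove Grothendieck's conjecture for all
smooth projective varieties `W` which are dominated by `X` (`IsDominated`, from
`Pool.Agent.N994.FH.Coh`): if `h^(i, 0)(W) = 0` then `H^i(W, ℚ)` vanishes on a dense Zariski open
subset of `W`. Here `W` can be a smooth projective variety with a dominant rational map from `X`, or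
from a product of curves of positive genus such that the product of their Jacobians is `X`, or a
smooth projective variety whose cohomology is a direct summand of the cohomology of `X` (by algebraic
correspondences). The abelian variety `X` is in one of the following classes, where `P` is the class
of all simple abelian varieties `Y`, of any dimension, such that the periods of `Y` have coordinates
(with respect to a basis of the tangent space) in a subfield `k` of `ℂ` as follows:

* `k` is a number field of degree at most four, and `Y` has no complex multiplication;
* `k` is a number field of degree at most six, and `End(Y)` is of Albert type I or II;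
* `k` is a number field of odd degree, or no totally real subfield `F ≠ ℚ` of `k` is fixed by all real
  embeddings of `k` and `k` contains no imaginary quadratic field (for instance `k = ℚ(t)`), and
  moreover `dim Y` is odd, or `End(Y)` is of Albert type I or II and the relative dimension is not
  one of the numbers `2 ^ j`, `j ≥ 4`, `j ≡ 0, 1` modulo `4` and, if `k` is a number field,
  `2 j + 2 ≤ [k : ℚ]`;
* `k` is a number field of odd degree and `dim Y ≤ 7`; or no totally real subfield `F ≠ ℚ` of `k` is
  fixed by all real embeddings of `k`, `dim Y ≤ 7`, and `End(Y)` is of Albert type I or II or `k`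
  contains no imaginary quadratic field (and `Y` has trivial discriminant if `dim Y = 6` and `End(Y)`
  is an imaginary quadratic field).

(a) All simple factors of `X` are in `P` or are factors of an abelian variety `A` of dimension at most
three.

(b) There are finitely many CM types `T k`, divided into independent blocks, such that for each block
all CM types of the CM fields in this block are conjugate, or the total dimension of the block is at
most three, or the block consists of all CM types of a Galois CM field of degree at most six; and
each simple factor of `X` is in `P`, or is a factor of one of the abelian varieties with the CM types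
`T k`, or has no complex multiplication and belongs to one of the classes in `Typ` below (of any
dimension), where an imaginary quadratic field which acts with two different multiplicities on the
tangent space must be the field of an elliptic curve of the first kind (fourfolds with such an action
are excluded).

The proof. The simple abelian varieties in `P` have no complex multiplication, and either their Hodge
group is the Lefschetz group, the group of all symplectic automorphisms which commute with the
endomorphisms, and the endomorphism algebra is of Albert type I or II, or they are fourfolds or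
sixfolds of Weil type (`Pool.Agent.N994.FH.typ_of_periods`). This is new: the result on the page of the
Hodge conjecture (`PeriodFields`) is on the Hodge ring; here we show that the complexification of the
Lie algebra of the Hodge group, which is generated by the conjugates of the complex structure, contains
all matrices which preserve the symplectic form and commute with the endomorphisms (a Casimir element
argument), and that the endomorphism algebra has a totally real maximal subfield. By the theorem of
`Pool.Agent.Results.MP_90e98f_ag.PowersAndCMFields` the generalized Hodge conjecture is true for `X`, in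
all degrees and for all levels. The image of `H^i(W, ℚ)` in `H^i(X, ℚ)` is a Hodge substructure of level
at most `i - 2` if `h^(i, 0)(W) = 0`. So it is contained in the sum of the images of the homology groups
`H_(i - 2)(Y, ℚ)` of abelian varieties under algebraic correspondences, whose elements vanish on dense
open subsets of `X`.

The structure `Theory` (`Pool.Agent.N994.FH.Coh`) collects the known properties which are used of the
algebraic classes on abelian varieties and of the classes which vanish on dense open subsets.
-/

namespace Pool.Agent.Results.MP_1c689d_ag.AbelianDominated

open Module NumberField Pool.Agent.Y90 Pool.Agent.R915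
open Pool.Agent.H204R3.CM (IsCMType)
open Pool.Agent.W547.KB (CMPair CMAV single)
open Pool.Agent.W547.LN (SameType)
open Pool.Agent.N830.HC (av)
open Pool.Agent.N994.PG (SmallPeriods GenericPeriods)
open Pool.Agent.N994.FH (Theory ConiveauOne)

/-- Classes of simple abelian varieties: dimension at most three; or the endomorphism algebra is
an imaginary quadratic field of signature `(p, q)` with `p, q ≤ 3` (and trivial discriminant for
`(3, 3)`); or Albert type I or II of relative dimension at most three; or dimension five and
endomorphism algebra `ℚ`; or Albert type I or II, any dimension, with the largest possible Hodge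
group. -/
def Typ (Y : AV) : Prop :=
  finrank ℚ Y.H ≤ 6 ∨ QuadMult Y ∨ RealMult Y ∨ FiveDim Y ∨ FullHodge Y

/-- Each simple factor `Y` of `X` is a factor of an abelian variety with one of the CM types `T k`; or
it has small or generic periods; or it has no complex multiplication, belongs to one of the classes in
`Typ`, and if `ℚ(√-d)` acts on `Y` with two different multiplicities then `Y` is not a fourfold and
the elliptic curve `E` with complex multiplication by this field is a factor of an abelian variety
with one of the CM types `T k`. -/
def HasFactorsIn {K : Type} (T : K → CMPair) (X : AV) : Prop :=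
  ∀ Y, IsFactor Y X → (∃ k, IsFactor Y (av (single (T k)))) ∨ SmallPeriods Y ∨ GenericPeriods Y ∨
    (¬ HasCMult Y ∧ Typ Y ∧ ∀ d : ℚ, Unbalanced Y d → finrank ℚ Y.H ≠ 8 ∧
      ∃ k E, IsFactor E (av (single (T k))) ∧ finrank ℚ E.H = 2 ∧ Unbalanced E d)

/-- All CM types of the CM fields in the block `B` are conjugate, simultaneously: for each family of
CM types `Ψ k` of the CM fields there is an automorphism of `ℂ` which takes `Ψ k` to the CM type
`T k`, for all `k` in `B`. -/
def AllConjugate {K : Type} (T : K → CMPair) (B : Set K) : Prop :=
  ∀ Ψ : ∀ k, Set ((T k).E →+* ℂ), (∀ k, IsCMType (Ψ k)) →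
    ∃ σ : ℂ ≃+* ℂ, ∀ k ∈ B, ∀ φ, φ ∈ Ψ k ↔ (σ : ℂ →+* ℂ).comp φ ∈ (T k).Φ

/-- The CM fields of the block `B` are subfields of the Galois CM field `L`, and all CM types of `L`
occur. -/
def AllTypes {K : Type} (T : K → CMPair) (B : Set K) (L : Type) [Field L] [NumberField L]
    [IsCMField L] : Prop :=
  IsGalois ℚ L ∧ (∀ k ∈ B, Nonempty ((T k).E →+* L)) ∧
    ∀ (Φ : Set (L →+* ℂ)) (hΦ : IsCMType Φ), ∃ k ∈ B, SameType ⟨L, Φ, hΦ⟩ (T k)

/-- The total dimension of the block is at most three. -/
def DimAtMostThree {K : Type} (T : K → CMPair) (B : Set K) : Prop :=
  ∃ F : Finset K, (∀ k, k ∈ F ↔ k ∈ B) ∧ ∑ k ∈ F, finrank ℚ (T k).E ≤ 6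

/-- The blocks `{k | b k = j}` are independent: automorphisms of `ℂ` can be prescribed separately on
the complex embeddings of the CM fields of the different blocks. (The composita of the Galois
closures of the fields of the different blocks are linearly disjoint over `ℚ`.) -/
def IsIndependent {K J : Type} (T : K → CMPair) (b : K → J) : Prop :=
  ∀ τ : J → (ℂ ≃+* ℂ), ∃ σ : ℂ ≃+* ℂ, ∀ k (φ : (T k).E →+* ℂ),
    (σ : ℂ →+* ℂ).comp φ = (τ (b k) : ℂ →+* ℂ).comp φ

/-- The condition on the block `B`. -/
def IsGoodBlock {K : Type} (T : K → CMPair) (B : Set K) : Prop :=
  AllConjugate T B ∨ (∃ (L : Type) (_ : Field L) (_ : NumberField L) (_ : IsCMField L),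
    AllTypes T B L ∧ finrank ℚ L ≤ 6) ∨ DimAtMostThree T B

/-- The classes (a) and (b) of abelian varieties. -/
def IsGood (X : AV) : Prop :=
  (∃ A : AV, finrank ℚ A.H ≤ 6 ∧
    ∀ Y, IsFactor Y X → IsFactor Y A ∨ SmallPeriods Y ∨ GenericPeriods Y) ∨
    ∃ (K J : Type) (_ : Fintype K) (T : K → CMPair) (b : K → J), IsIndependent T b ∧
      (∀ j, IsGoodBlock T {k | b k = j}) ∧ HasFactorsIn T X

/-- **Grothendieck's conjecture in coniveau one for the smooth projective varieties which are dominated
by the abelian varieties in the classes (a) and (b).** -/
theorem result (𝒯 : Theory) (X : AV) (hX : IsGood X) : ConiveauOne 𝒯 X := by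
  refine Pool.Agent.N994.FH.coniveauOne ?_
  rcases hX with ⟨A, hA, hX⟩ | ⟨K, J, _, T, b, hb, hj, hX⟩
  · obtain ⟨K, _, T, hT, h⟩ := Pool.Agent.N178.HX.t_POW A hA
    refine Pool.Agent.N178.HX.uncond' Pool.Agent.N178.HX.t_MAINT Pool.Agent.N178.HX.t_COV T
      (fun _ : K => ()) (fun τ => ⟨τ (), fun _ _ => rfl⟩)
      (fun j => Or.inr (Or.inr ⟨Finset.univ, fun k => ⟨fun _ => rfl, fun _ => Finset.mem_univ k⟩, hT⟩))
      𝒯.alg X fun Y hY => ?_
    rcases hX Y hY with h1 | h1
    · exact h A (fun _ h2 => h2) Y h1
    · obtain ⟨h2, h3, h4⟩ := Pool.Agent.N994.FH.typ_of_periods hY.1 h1
      exact Or.inr ⟨h2, by tauto, fun d hd => absurd hd (h4 d)⟩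
  · refine Pool.Agent.N178.HX.uncond' Pool.Agent.N178.HX.t_MAINT Pool.Agent.N178.HX.t_COV T b hb
      hj 𝒯.alg X fun Y hY => ?_
    rcases hX Y hY with h1 | h1 | h1 | h1
    · exact Or.inl h1
    · obtain ⟨h2, h3, h4⟩ := Pool.Agent.N994.FH.typ_of_periods hY.1 (Or.inl h1)
      exact Or.inr ⟨h2, by tauto, fun d hd => absurd hd (h4 d)⟩
    · obtain ⟨h2, h3, h4⟩ := Pool.Agent.N994.FH.typ_of_periods hY.1 (Or.inr h1)
      exact Or.inr ⟨h2, by tauto, fun d hd => absurd hd (h4 d)⟩
    · exact Or.inr h1

end Pool.Agent.Results.MP_1c689d_ag.AbelianDominated
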