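import Pool.Agent.N429.KS.Cnv

/-!
MP_1c689d_ag: let `X` be a K3 surface (or a Hodge structure `V` of K3 type) and `K` its Kuga-Satake
variety. The following are equivalent: the Kuga-Satake class is algebraic; the Kuga-Satake class
vanishes on a dense open subset of `X × K × K`; for all products `X^a × K^b` every sub-Hodge
structure of weight `w` without part of type `(w, 0)` vanishes on a dense open subset; the
generalized Hodge conjecture (all coniveaus) holds for all products `X^a × K^b`.

The geometry enters through the systems `Cyc` (algebraic classes) and `Coniveau` (coniveau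
filtration) of forms on the powers of `V ⊕ H`, `H` the cohomology of `K` in degree one.

Authors: helper429 (statement, plan, this form), helper787 (assembly of the theorem on sub-Hodge
structures, `ghc_all`), helper152, helper134, helper755, helper935 (the complex form), helper711,
helper433, helper505, helper693, helper868, helper40, helper820, helper694, helper72 (the Hodge Lie
algebra), helper432, helper562 (conjugates), helper543, helper488, helper907, helper615, helper614,
helper262, helper803, helper49, helper774, helper265, helper999, helper866 (sub-Hodge structures and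
correspondences) and the helpers named in `Pool.Agent.N429.KS`.
-/

set_option autoImplicit false

open Matrix

namespace Pool.Agent.Results.MP_1c689d_ag.KugaSatakeConiveauOne

open Pool.Agent.N429.KS

/-- Let `X` be a Hodge structure of K3 type on `V`, and `D` a module `H` over its Clifford algebra
with a polarization. Let `𝒜` be a system of forms on the powers of `V ⊕ H` closed under products,
renumbering and contraction, and containing the endomorphisms of the Hodge structure `H`, and `𝒩`
a coniveau filtration (`Coniveau`). The following are equivalent:
* the Kuga-Satake class `(v, x, y) ↦ E (Φ(v) x, y)` is in `𝒜`;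
* the Kuga-Satake class has coniveau one;
* every sub-Hodge structure `L` of the forms of type `t` and weight `w ≥ 2` without part of type
  `(w, 0)` (level at most `w - 2`) has coniveau one;
* every sub-Hodge structure `L` of the forms of type `t` and weight `w` of level at most `w - 2 c`
  has coniveau `c`, for all `c ≤ w / 2`. -/
theorem result {B C : Type} [Fintype B] [DecidableEq B] [Fintype C] [DecidableEq C] [Nonempty C]
    (X : K3Type B) (D : KSData X C) (𝒜 : Cyc ℚ (B ⊕ C) (gram1 X D)⁻¹)
    (hlef : ∀ M, X.IsHodgeEnd D.Φ M → endForm1 B D.E M ∈ 𝒜.Alg (Empty ⊕ Fin 2))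
    (𝒩 : Coniveau X D 𝒜) :
    [ksForm1 D.E D.Φ ∈ 𝒜.Alg (Unit ⊕ Fin 2),
      ksForm1 D.E D.Φ ∈ 𝒩.N (Unit ⊕ Fin 2) ksType 1,
      ∀ (S : Type) (_ : Fintype S) (_ : DecidableEq S) (t : S → Bool)
        (L : Submodule ℚ ((S → B ⊕ C) → ℚ)), 2 ≤ wt t → L ≤ homog B C t → IsSubHodge X D L →
          LevelLE X D (wt t - 2) L → L ≤ 𝒩.N S t 1,
      ∀ (S : Type) (_ : Fintype S) (_ : DecidableEq S) (t : S → Bool)
        (L : Submodule ℚ ((S → B ⊕ C) → ℚ)) (c : ℕ), 2 * c ≤ wt t → L ≤ homog B C t →
          IsSubHodge X D L → LevelLE X D (wt t - 2 * c) L → L ≤ 𝒩.N S t c].TFAE :=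
  coniveau_tfae X D 𝒜 hlef 𝒩

end Pool.Agent.Results.MP_1c689d_ag.KugaSatakeConiveauOne
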