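import Mathlib
import Pool.Agent.N102.PeriodsCn1

/-!
# The case of coniveau one for varieties dominated by abelian varieties with many independent periods

Let `A = ℂ ^ g / (ℤ ^ g + Z ℤ ^ g)` be the principally polarized abelian variety with the period
matrix `Z` (symmetric, with positive definite imaginary part), `K` any subfield of `ℂ`, and suppose
that `D` entries of `Z`, with different indices, are algebraically independent over `K`. For a
smooth projective variety `Y` let `C(A, Y)` be the statement: if `Y` satisfies the generalized Hodge
conjecture in coniveau one, for example if `Y` is a point, a curve or a surface, then for all `n`, all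
smooth projective varieties `X` which are dominated by `A ^ n × Y`, and all `i` with `h^(i, 0)(X) = 0`,
all of `H^i(X, ℚ)` vanishes on a dense Zariski open subset of `X`. We prove:

* `A` is isogenous to a product `A₁ × A₂` of principally polarized abelian varieties with period matrices
  `Z₁`, `Z₂`, where the dimension `r` of `A₂` is small: `r ≤ ρ` for all `ρ` with `g ^ 2 < 4 D` and
  `(ρ + 1) ^ 2 + 2 (g - ρ - 1) (g - ρ) < 4 D`, such that `C(A₁, Y)` is true for all `Y` of CM type (the
  Mumford-Tate group of the cohomology is commutative), and for all `Y` whose Hodge filtration is
  defined over the field generated by `K` and the entries of `Z₂`.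
* If `D > g (g - 1) / 2` then `C(A, Y)` is true for all `Y` of CM type, and for all
  `Y` whose Hodge filtration is defined over `K`, for example for all curves and surfaces with periods
  in `K`; and the conjecture is true without any hypothesis for all `X` dominated by `A ^ n`, in all
  degrees.

This is a statement on each single abelian variety with many algebraically independent periods: no
very general point, no family and no condition on the endomorphisms, and `A` need not be simple. For
the second part any `g (g - 1) / 2 + 1` of the `g (g + 1) / 2` entries `Z i j`, `i ≤ j`, can be the
independent ones, for instance two of the three entries for `g = 2`, and four of the six entries for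
`g = 3`; in the first part `A₁` is not zero if `D > g ^ 2 / 4`, about half of the entries. The starting
result `CMTypes` on this page is about the opposite case of abelian varieties of CM type, all of whose
periods are algebraic.

The varieties are given by their cohomology as in `CMTypes`: `Coh v` is a rational space with a basis of
homogeneous elements and the Hodge operator (the multiplication by `p - q` on the classes of type
`(p, q)`), the cohomology of `A ^ n × Y` is `HAZ`, and `X` is dominated by `A ^ n × Y` if there are
`pull`, a morphism of Hodge structures, and a left inverse `push` of it which maps the classes supported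
on divisors of `A ^ n × Y` to the space `NX` of classes of `X` which vanish on a dense open subset (these
are the pullback and `c` times `β ↦ π_* (h ^ d ∧ β)` for a surjective morphism `π`).

The proof: the derivations of `ℂ` over `K` act on the period matrix, so the complexified Lie algebra of
the Mumford-Tate group of `A` contains the nilpotent operators given by the derivatives of the period
matrix, and by the algebraic independence there are `D` linearly independent ones. By linear algebra
the Hodge Lie algebra of a simple factor with many such operators is a symplectic algebra over a
totally real field, and these factors are independent of each other, of the other factors, and of `Y`.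
The sub-Hodge structures of `A ^ n × Y` of coniveau one are then spanned by products of divisor classes on
`A ^ n` with arbitrary classes and by products with classes of coniveau one on `Y`
(`Pool.Agent.X311.ghc_periods`, library of the starting files, not handed in before). As `h^(i, 0)(X) = 0`,
the image of `H^i(X)` is such a sub-Hodge structure (`Pool.Agent.X311.Cn1`).
-/

set_option autoImplicit false

namespace Pool.Agent.Results.MP_1c689d_ag.ManyPeriods

open Pool.Agent.H204R3.CM Pool.Agent.W437.HC Pool.Agent.W437.HD Pool.Agent.TH131.GHC
  Pool.Agent.X311 Pool.Agent.X311.Cn1 Pool.Agent.N102.PeriodsCn1

/-- Grothendieck's conjecture in coniveau one for the varieties dominated by products of powers of an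
abelian variety with many algebraically independent periods and a variety. -/
theorem result {g : ℕ} (Z : Matrix (Fin g) (Fin g) ℂ) (hZ : Z.transpose = Z)
    (hpos : (Z.map Complex.im).PosDef) (K : Subfield ℂ) {D : ℕ} (p : Fin D → Fin g × Fin g)
    (hp : AlgebraicIndependent K fun s => Z (p s).1 (p s).2) :
    (∃ (b r : ℕ) (Z₁ : Matrix (Fin b) (Fin b) ℂ) (Z₂ : Matrix (Fin r) (Fin r) ℂ),
      IsPeriodMatrix Z₁ ∧ IsPeriodMatrix Z₂ ∧ IsIsogenousToProduct Z Z₁ Z₂ ∧ b + r = g ∧
      (∀ ρ : ℕ, g ^ 2 < 4 * D → (ρ + 1) ^ 2 + 2 * (g - ρ - 1) * (g - ρ) < 4 * D → r ≤ ρ) ∧
      (∀ (v : ℕ) (V : Coh v), IsOfCMType V ∨ HasFiltrationOver (periodField K Z₂) V →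
        ConiveauOneTimes Z₁ V)) ∧
    (g * (g - 1) < 2 * D →
      (∀ (v : ℕ) (V : Coh v), IsOfCMType V ∨ HasFiltrationOver K V → ConiveauOneTimes Z V) ∧
      ∀ (n x : ℕ) (H : Coh x) (NX : Submodule ℚ (Fin x → ℚ)), IsEffective H →
        IsDominated (perPow Z n) pointCoh ⊥ H NX → ConiveauOne H NX) :=
  main Z hZ hpos K p hp

end Pool.Agent.Results.MP_1c689d_ag.ManyPeriods
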